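import Pool.Agent.H36.LBL.Fix

/-!
# The exchange lemma: a form of small rank which is small off the diagonal is small on it
-/

set_option autoImplicit false

namespace Pool.TS64

open Finset Real
open Pool.Agent.H49.Ent Pool.Agent.H32.Dense Pool.STK
open Pool.SLO (tup tup_nonneg tup_marg tup_isLaw tup_sub)
open Pool.BFL (Pb)
open Pool.LBL (nn pmono pbad pmarg)

/-- `r + 1` vectors of `R^r`: one of them is a combination of the others with coefficients at
most 1. -/
theorem dep_one {r : ℕ} {ι : Type} [DecidableEq ι] (A : ι → Fin r → ℝ) (s : Finset ι)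
    (hs : r < s.card) :
    ∃ i ∈ s, ∃ g : ι → ℝ, (∀ j, |g j| ≤ 1) ∧ ∀ k, A i k = ∑ j ∈ s.erase i, g j * A j k := by
  classical
  have h0 : ¬ LinearIndependent ℝ (fun i : s => A i) := by
    intro h
    have h1 := h.fintype_card_le_finrank
    rw [Module.finrank_fintype_fun_eq_card, Fintype.card_fin, Fintype.card_coe] at h1
    omega
  rw [Fintype.not_linearIndependent_iff] at h0
  obtain ⟨f, hf, i₀, hi₀⟩ := h0
  have hne : (Finset.univ : Finset s).Nonempty := ⟨i₀, Finset.mem_univ _⟩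
  obtain ⟨i, _, hi⟩ := Finset.exists_max_image (Finset.univ : Finset s) (fun j => |f j|) hne
  have hfi : f i ≠ 0 := by
    intro h
    have := hi i₀ (Finset.mem_univ _)
    rw [h, abs_zero] at this
    exact hi₀ (abs_eq_zero.1 (le_antisymm this (abs_nonneg _)))
  obtain ⟨F, hF⟩ : ∃ F : ι → ℝ, F = fun j => if h : j ∈ s then f ⟨j, h⟩ else 0 := ⟨_, rfl⟩
  have hFs : ∀ j : s, F j = f j := by
    intro j
    rw [hF]
    simp only [j.2, dif_pos]
  refine ⟨i, i.2, fun j => - (F j / f i), ?_, ?_⟩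
  · intro j
    rw [abs_neg, abs_div, div_le_one (abs_pos.2 hfi)]
    by_cases h : j ∈ s
    · have := hi ⟨j, h⟩ (Finset.mem_univ _)
      rw [← hFs] at this
      exact this
    · rw [hF]
      simp only [h, dif_neg, not_false_iff, abs_zero]
      exact abs_nonneg _
  · intro k
    have h1 : ∑ j ∈ s, F j * A j k = 0 := by
      have h2 := congrFun hf k
      rw [Finset.sum_apply] at h2
      rw [← Finset.sum_coe_sort s]
      have h4 : ∑ j : s, F j * A j k = ∑ j : s, (f j • A (j : ι)) k := by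
        refine Finset.sum_congr rfl fun j _ => ?_
        rw [hFs]
        rfl
      rw [h4, h2]
      rfl
    rw [← Finset.add_sum_erase s _ i.2, hFs] at h1
    have h3 : ∑ j ∈ s.erase (i : ι), -(F j / f i) * A j k =
        -((∑ j ∈ s.erase (i : ι), F j * A j k) / f i) := by
      rw [Finset.sum_div, ← Finset.sum_neg_distrib]
      refine Finset.sum_congr rfl fun j _ => ?_
      ring
    rw [h3, eq_neg_iff_add_eq_zero]
    field_simp
    linarith

/-- **Exchange lemma**, deterministic. -/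
theorem rank_few {r : ℕ} {ι : Type} [DecidableEq ι] (A B : ι → Fin r → ℝ) (s : Finset ι)
    {e : ℝ} (he : ∀ i ∈ s, ∀ j ∈ s, i ≠ j → |∑ k, A i k * B j k| ≤ e)
    (hb : ∀ i ∈ s, r * e < |∑ k, A i k * B i k|) : s.card ≤ r := by
  by_contra hs
  have hs' : r < s.card := by omega
  -- a subset with `r + 1` elements
  obtain ⟨u, hu, hc⟩ := Finset.exists_subset_card_eq (show r + 1 ≤ s.card by omega)
  obtain ⟨i, hi, g, hg, hk⟩ := dep_one A u (by omega)
  have h1 : ∑ k, A i k * B i k = ∑ j ∈ u.erase i, g j * ∑ k, A j k * B i k := by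
    calc ∑ k, A i k * B i k = ∑ k, ∑ j ∈ u.erase i, g j * A j k * B i k := by
          refine Finset.sum_congr rfl fun k _ => ?_
          rw [hk k, Finset.sum_mul]
      _ = ∑ j ∈ u.erase i, ∑ k, g j * A j k * B i k := Finset.sum_comm
      _ = _ := by
          refine Finset.sum_congr rfl fun j _ => ?_
          rw [Finset.mul_sum]
          exact Finset.sum_congr rfl fun k _ => by ring
  have h2 : |∑ k, A i k * B i k| ≤ r * e := by
    rw [h1]
    refine (Finset.abs_sum_le_sum_abs _ _).trans ?_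
    have h3 : ∀ j ∈ u.erase i, |g j * ∑ k, A j k * B i k| ≤ e := by
      intro j hj
      rw [Finset.mem_erase] at hj
      rw [abs_mul]
      have h4 := he j (hu hj.2) i (hu hi) hj.1
      calc |g j| * |∑ k, A j k * B i k| ≤ 1 * e :=
            mul_le_mul (hg j) h4 (abs_nonneg _) zero_le_one
        _ = e := one_mul _
    refine (Finset.sum_le_sum h3).trans ?_
    rw [Finset.sum_const, Finset.card_erase_of_mem hi, hc, nsmul_eq_mul]
    simp
  exact absurd (hb i (hu hi)) (not_lt.2 h2)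

variable {Ω Λ : Type} [Fintype Ω] {p : Ω → ℝ}

theorem pair_marg (hp : ∀ ω, 0 ≤ p ω) (L : Ω → Λ) {N : ℕ} {i j : Fin (N + 1)} (hij : i ≠ j) :
    Marg (tup p L N) (tup p L 1) (fun v => v ∘ ![i, j]) := by
  refine tup_sub hp L ![i, j] ?_
  intro a b h
  fin_cases a <;> fin_cases b <;> simp at h ⊢
  · exact hij h
  · exact hij h.symm

theorem pb_le_sum (hp : ∀ ω, 0 ≤ p ω) {ι : Type} (s : Finset ι) {A : Ω → Prop}
    (B : ι → Ω → Prop) (h : ∀ ω, 0 < p ω → A ω → ∃ i ∈ s, B i ω) :
    Pb p A ≤ ∑ i ∈ s, Pb p (B i) := by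
  have h1 := pbad hp s (A := A) (G := fun _ => False) B
    (fun ω h0 hA => Or.inl (h ω h0 hA))
  have h2 : Pb p (fun _ => False) = 0 := by
    unfold Pb
    simp
  linarith

/-- **Exchange lemma**: the copies `v 0, v 1` are two samples with the same value of `L`, iid
given it.  If the form of rank `r` is at most `e` for the pair (outside probability `h`) then it
is at most `r e` for the sample with itself, outside probability
`r / (N + 1) + (N + 1) ^ 2 h`. -/
theorem rank_pb (hp : IsLaw p) (L : Ω → Λ) {r : ℕ} (A B : Ω → Fin r → ℝ) {e h : ℝ}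
    (hoff : Pb (tup p L 1) (fun v => ¬ |∑ k, A (v 0) k * B (v 1) k| ≤ e) ≤ h) (N : ℕ) :
    Pb p (fun ω => ¬ |∑ k, A ω k * B ω k| ≤ r * e) ≤
      r / (N + 1 : ℕ) + ((N + 1 : ℕ) : ℝ) ^ 2 * h := by
  classical
  have h0 := hp.nonneg
  have hn : ∀ v, 0 ≤ tup p L N v := fun v => tup_nonneg h0 L N v
  obtain ⟨F, hF⟩ : ∃ F : Ω → Ω → ℝ, F = fun a b => |∑ k, A a k * B b k| := ⟨_, rfl⟩
  obtain ⟨Bd, hBd⟩ : ∃ Bd : (Fin (N + 1) → Ω) → Prop,
    Bd = fun v => ∃ i j, i ≠ j ∧ ¬ F (v i) (v j) ≤ e := ⟨_, rfl⟩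
  have hh : 0 ≤ h := (nn (fun v => tup_nonneg h0 L 1 v) _).trans hoff
  -- the bad event
  have hbad : Pb (tup p L N) Bd ≤ ((N + 1 : ℕ) : ℝ) ^ 2 * h := by
    have h1 := pb_le_sum hn (Finset.univ : Finset (Fin (N + 1) × Fin (N + 1)))
      (A := Bd) (fun ij v => ij.1 ≠ ij.2 ∧ ¬ F (v ij.1) (v ij.2) ≤ e) (by
        intro v _ hv
        rw [hBd] at hv
        obtain ⟨i, j, h2, h3⟩ := hv
        exact ⟨(i, j), Finset.mem_univ _, h2, h3⟩)
    refine h1.trans ?_
    have h2 : ∀ ij ∈ (Finset.univ : Finset (Fin (N + 1) × Fin (N + 1))),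
        Pb (tup p L N) (fun v => ij.1 ≠ ij.2 ∧ ¬ F (v ij.1) (v ij.2) ≤ e) ≤ h := by
      intro ij _
      by_cases hij : ij.1 = ij.2
      · have : Pb (tup p L N) (fun v => ij.1 ≠ ij.2 ∧ ¬ F (v ij.1) (v ij.2) ≤ e) = 0 := by
          unfold Pb
          simp [hij]
        rw [this]
        exact hh
      · have h3 := pmarg (pair_marg h0 L hij) (fun v => ¬ F (v 0) (v 1) ≤ e)
        refine (pmono hn (B := fun v => ¬ F (v ij.1) (v ij.2) ≤ e) fun v _ hv => hv.2).trans ?_
        refine le_trans (le_of_eq ?_) (le_trans (le_of_eq h3) ?_)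
        · rfl
        · rw [hF]
          exact hoff
    refine (Finset.sum_le_sum h2).trans ?_
    rw [Finset.sum_const, Finset.card_univ, Fintype.card_prod, Fintype.card_fin, nsmul_eq_mul]
    push_cast
    exact le_of_eq (by ring)
  -- counting
  have hcount : ∀ v, ∑ i : Fin (N + 1), (if ¬ F (v i) (v i) ≤ r * e then (1 : ℝ) else 0) ≤
      r + (N + 1 : ℕ) * (if Bd v then 1 else 0) := by
    intro v
    rw [← Finset.sum_filter, Finset.sum_const, nsmul_eq_mul, mul_one]
    by_cases hv : Bd v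
    · rw [if_pos hv, mul_one]
      have h1 : ((Finset.univ.filter fun i : Fin (N + 1) => ¬ F (v i) (v i) ≤ r * e).card : ℝ) ≤
          ((N + 1 : ℕ) : ℝ) := by
        have := Finset.card_filter_le (Finset.univ : Finset (Fin (N + 1)))
          (fun i => ¬ F (v i) (v i) ≤ r * e)
        rw [Finset.card_univ, Fintype.card_fin] at this
        exact_mod_cast this
      have h2 : (0 : ℝ) ≤ r := Nat.cast_nonneg r
      linarith
    · rw [if_neg hv, mul_zero, add_zero]
      have h1 := rank_few (fun i => A (v i)) (fun i => B (v i))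
        (Finset.univ.filter fun i : Fin (N + 1) => ¬ F (v i) (v i) ≤ r * e) (e := e)
        (by
          intro i _ j _ hij
          by_contra h2
          refine hv ?_
          rw [hBd]
          refine ⟨i, j, hij, ?_⟩
          rw [hF]
          exact h2)
        (by
          intro i hi
          rw [Finset.mem_filter, hF] at hi
          exact not_le.1 hi.2)
      exact_mod_cast h1
  -- expectation
  have hmain : ((N + 1 : ℕ) : ℝ) * Pb p (fun ω => ¬ F ω ω ≤ r * e) ≤
      r + (N + 1 : ℕ) * (((N + 1 : ℕ) : ℝ) ^ 2 * h) := by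
    have h1 : ∀ i : Fin (N + 1), Pb p (fun ω => ¬ F ω ω ≤ r * e) =
        ∑ v, tup p L N v * (if ¬ F (v i) (v i) ≤ r * e then (1 : ℝ) else 0) := by
      intro i
      rw [← pmarg (tup_marg h0 L N i) (fun ω => ¬ F ω ω ≤ r * e)]
      unfold Pb
      refine Finset.sum_congr rfl fun v _ => ?_
      split_ifs <;> simp
    have h2 : ((N + 1 : ℕ) : ℝ) * Pb p (fun ω => ¬ F ω ω ≤ r * e) =
        ∑ v, tup p L N v * ∑ i : Fin (N + 1),
          (if ¬ F (v i) (v i) ≤ r * e then (1 : ℝ) else 0) := by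
      simp only [Finset.mul_sum]
      rw [Finset.sum_comm]
      rw [← Finset.sum_congr rfl fun i _ => h1 i, Finset.sum_const, Finset.card_univ,
        Fintype.card_fin, nsmul_eq_mul]
    rw [h2]
    have h3 : ∑ v, tup p L N v * ∑ i : Fin (N + 1),
        (if ¬ F (v i) (v i) ≤ r * e then (1 : ℝ) else 0) ≤
        ∑ v, tup p L N v * (r + (N + 1 : ℕ) * (if Bd v then 1 else 0)) :=
      Finset.sum_le_sum fun v _ => mul_le_mul_of_nonneg_left (hcount v) (hn v)
    refine h3.trans ?_
    have h4 : ∑ v, tup p L N v * (r + (N + 1 : ℕ) * (if Bd v then (1 : ℝ) else 0)) =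
        r + (N + 1 : ℕ) * Pb (tup p L N) Bd := by
      simp only [mul_add, Finset.sum_add_distrib]
      rw [← Finset.sum_mul, (tup_isLaw hp L N).sum_one, one_mul]
      congr 1
      unfold Pb
      rw [Finset.mul_sum]
      refine Finset.sum_congr rfl fun v _ => ?_
      split_ifs <;> ring
    rw [h4]
    have h5 := mul_le_mul_of_nonneg_left hbad (show (0 : ℝ) ≤ ((N + 1 : ℕ) : ℝ) by positivity)
    linarith
  have hN : (0 : ℝ) < ((N + 1 : ℕ) : ℝ) := by positivity
  have h6 : Pb p (fun ω => ¬ F ω ω ≤ r * e) ≤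
      (r + (N + 1 : ℕ) * (((N + 1 : ℕ) : ℝ) ^ 2 * h)) / ((N + 1 : ℕ) : ℝ) := by
    rw [le_div_iff₀ hN]
    linarith
  rw [add_div, mul_div_cancel_left₀ _ hN.ne'] at h6
  rw [hF] at h6
  exact h6

end Pool.TS64
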